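import Mathlib
import Pool.Agent.H85.NotStableTwo

set_option autoImplicit false

/-!
# `ℤ²` is not `𝒢_p`-stable, for every prime `p`

For every prime `p`, all `j ≥ 0`, `m ≥ 2` and `n ≥ 2 m ^ 2` there are `A, B` in `GL_n(ℤ_p)`, both
congruent to `1` modulo `p ^ j`, which commute modulo `p ^ (m + 2 j)`, such that for all commuting
`n × n` matrices `A', B'` over `ℤ_p` (invertible or not) some entry of `A - A'` or of `B - B'` has
absolute value at least `p ^ (-(j + 1))`: no commuting pair is congruent to `(A, B)` modulo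
`p ^ (j + 2)`.
-/

namespace Pool.Agent.Results.MP_cbb20d_al.EveryPrimeUnstable

theorem le_inv_pow_iff {p : ℕ} [hp : Fact p.Prime] (x : ℤ_[p]) (k : ℕ) :
    ‖x‖ ≤ ((p : ℝ)⁻¹) ^ k ↔ (p : ℤ_[p]) ^ k ∣ x := by
  rw [← Ideal.mem_span_singleton, ← PadicInt.norm_le_pow_iff_mem_span_pow, zpow_neg, zpow_natCast,
    inv_pow]

theorem dvd_of_lt {p : ℕ} [hp : Fact p.Prime] (x : ℤ_[p]) (k : ℕ)
    (h : ‖x‖ < ((p : ℝ)⁻¹) ^ k) : (p : ℤ_[p]) ^ (k + 1) ∣ x := by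
  rw [← Ideal.mem_span_singleton, ← PadicInt.norm_le_pow_iff_mem_span_pow]
  have h1 := (PadicInt.norm_lt_pow_iff_norm_le_pow_sub_one x (-(k : ℤ))).mp
    (by rw [zpow_neg, zpow_natCast, ← inv_pow]; exact h)
  have h2 : -((k + 1 : ℕ) : ℤ) = -(k : ℤ) - 1 := by push_cast; ring
  rw [h2]
  exact h1

/-- For every prime `p`, `j ≥ 0`, `m ≥ 2` and `n ≥ 2 m ^ 2` there are `A, B ∈ GL_n(ℤ_p)`,
`A ≡ B ≡ 1 mod p ^ j`, with `AB ≡ BA mod p ^ (m + 2 j)` (all entries of `AB - BA` have absolute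
value at most `p ^ (-(m + 2 j))`), such that every commuting pair `A', B'` of `n × n` matrices over
`ℤ_p` has distance at least `p ^ (-(j + 1))` from `(A, B)`. -/
theorem result (p : ℕ) [Fact p.Prime] (j m n : ℕ) (hm : 2 ≤ m) (hn : 2 * m ^ 2 ≤ n) :
    ∃ A B : Matrix.GeneralLinearGroup (Fin n) ℤ_[p],
      (∀ r s, ‖(A.val - 1) r s‖ ≤ ((p : ℝ)⁻¹) ^ j) ∧
      (∀ r s, ‖(B.val - 1) r s‖ ≤ ((p : ℝ)⁻¹) ^ j) ∧
      (∀ r s, ‖(A.val * B.val - B.val * A.val) r s‖ ≤ ((p : ℝ)⁻¹) ^ (m + 2 * j)) ∧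
      ∀ A' B' : Matrix (Fin n) (Fin n) ℤ_[p], A' * B' = B' * A' →
        (∃ r s, ((p : ℝ)⁻¹) ^ (j + 1) ≤ ‖(A.val - A') r s‖) ∨
        (∃ r s, ((p : ℝ)⁻¹) ^ (j + 1) ≤ ‖(B.val - B') r s‖) := by
  obtain ⟨A, B, hA, hB, hA1, hB1, hAB, hno⟩ := Pool.Agent.H85.NS2.main_fin p j m n hm hn
  refine ⟨hA.unit, hB.unit, ?_, ?_, ?_, ?_⟩
  · intro r s
    rw [IsUnit.unit_spec]
    exact (le_inv_pow_iff _ _).mpr (hA1 r s)
  · intro r s
    rw [IsUnit.unit_spec]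
    exact (le_inv_pow_iff _ _).mpr (hB1 r s)
  · intro r s
    rw [IsUnit.unit_spec, IsUnit.unit_spec]
    exact (le_inv_pow_iff _ _).mpr (hAB r s)
  · intro A' B' hc
    rw [IsUnit.unit_spec, IsUnit.unit_spec]
    by_contra hcon
    rw [not_or] at hcon
    obtain ⟨h1, h2⟩ := hcon
    push Not at h1 h2
    exact hno A' B' hc (fun r s => dvd_of_lt _ _ (h1 r s)) (fun r s => dvd_of_lt _ _ (h2 r s))

end Pool.Agent.Results.MP_cbb20d_al.EveryPrimeUnstable
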